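import Pool.Agent.helper88.Vis.Defs

/-!
MP_6b3417_co (frozen S09315), part II.3 (c): the triple lemma (module II-C2).
-/

set_option autoImplicit false

namespace Pool.Agent.helper43.Triple

open Pool.Agent.helper47.Vis Pool.Agent.helper88.Vis

theorem Fn_le (Z : Finset (ℝ × ℝ)) (s r : ℝ × ℝ) : Fn Z s r ≤ 2 * Z.card := by
  classical
  unfold Fn
  have hd : Disjoint (fil Z (fun z => 0 < ori s r z)) (fil Z (fun z => ori s r z = 0)) := by
    rw [Finset.disjoint_left]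
    intro z h1 h2
    have := (mem_fil.1 h1).2
    have h3 := (mem_fil.1 h2).2
    linarith
  have h1 : (fil Z (fun z => 0 < ori s r z)).card + (fil Z (fun z => ori s r z = 0)).card
      ≤ Z.card := by
    rw [← Finset.card_union_of_disjoint hd]
    apply Finset.card_le_card
    exact Finset.union_subset (fil_subset _ _) (fil_subset _ _)
  omega

/-- abstract comparison. -/
lemma Fn_lt_of (Z : Finset (ℝ × ℝ)) (s r s' r' : ℝ × ℝ)
    (h : ∀ z ∈ Z, 0 ≤ ori s r z → 0 < ori s' r' z)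
    (hne : (∀ z ∈ Z, ori s r z ≠ 0) → (∀ z ∈ Z, ori s' r' z ≠ 0) → False) :
    Fn Z s r < Fn Z s' r' := by
  classical
  unfold Fn
  have hd : Disjoint (fil Z (fun z => 0 < ori s r z)) (fil Z (fun z => ori s r z = 0)) := by
    rw [Finset.disjoint_left]
    intro z h1 h2
    have := (mem_fil.1 h1).2
    have h3 := (mem_fil.1 h2).2
    linarith
  have h1 : (fil Z (fun z => 0 < ori s r z)).card + (fil Z (fun z => ori s r z = 0)).card
      ≤ (fil Z (fun z => 0 < ori s' r' z)).card := by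
    rw [← Finset.card_union_of_disjoint hd]
    apply Finset.card_le_card
    intro z hz
    rw [Finset.mem_union, mem_fil, mem_fil] at hz
    rw [mem_fil]
    rcases hz with hz | hz
    · exact ⟨hz.1, h z hz.1 hz.2.le⟩
    · exact ⟨hz.1, h z hz.1 hz.2.ge⟩
  by_contra hcon
  push Not at hcon
  have h2 : (fil Z (fun z => ori s r z = 0)).card = 0 := by omega
  have h3 : (fil Z (fun z => ori s' r' z = 0)).card = 0 := by omega
  rw [Finset.card_eq_zero] at h2 h3
  apply hne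
  · intro z hz h0
    have : z ∈ fil Z (fun z => ori s r z = 0) := mem_fil.2 ⟨hz, h0⟩
    rw [h2] at this
    simp at this
  · intro z hz h0
    have : z ∈ fil Z (fun z => ori s' r' z = 0) := mem_fil.2 ⟨hz, h0⟩
    rw [h3] at this
    simp at this

/-- three consecutive lines. -/
structure Tri (V : Finset (ℝ × ℝ)) (c0 d0 c1 d1 c2 d2 : ℝ × ℝ) : Prop where
  K5 : K5free (V : Set (ℝ × ℝ))
  h1 : ∀ p ∈ V, 0 < sd c0 d0 p → 0 ≤ sd c1 d1 p
  h2 : ∀ p ∈ V, 0 < sd c0 d0 p → 0 < sd c1 d1 p → 0 ≤ sd c2 d2 p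
  bad : (fil V (fun p => 0 < sd c0 d0 p ∧ sd c1 d1 p = 0 ∧ 0 ≤ sd c2 d2 p)).card ≤ 2
  four : 4 ≤ (fil V (fun p => 0 < sd c0 d0 p ∧ sd c1 d1 p = 0)).card

variable {V : Finset (ℝ × ℝ)} {c0 d0 c1 d1 c2 d2 : ℝ × ℝ}

lemma ori_eq_zero_of_mem {p q r : ℝ × ℝ} (h : r ∈ openSegment ℝ p q) : ori p q r = 0 := by
  obtain ⟨a, b, ha, hb, hab, rfl⟩ := h
  have hb' : b = 1 - a := by linarith
  subst hb'
  simp only [ori, Prod.fst_add, Prod.snd_add, Prod.smul_fst, Prod.smul_snd, smul_eq_mul]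
  ring

lemma Tri.sees_sz (hT : Tri V c0 d0 c1 d1 c2 d2) {s z : ℝ × ℝ} (hs0 : sd c0 d0 s = 0)
    (hs1 : sd c1 d1 s < 0) (hz0 : 0 < sd c0 d0 z) (hz1 : sd c1 d1 z = 0) :
    Sees (V : Set (ℝ × ℝ)) s z := by
  refine ⟨?_, ?_⟩
  · rintro rfl; linarith
  · intro v hv hvs
    obtain ⟨a, b, ha, hb, hab, e⟩ := sd_openSegment (c := c0) (d := d0) hvs
    obtain ⟨a', b', ha', hb', hab', e'⟩ := sd_openSegment (c := c1) (d := d1) hvs
    have h0 : 0 < sd c0 d0 v := by
      rw [e, hs0]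
      have := mul_pos hb hz0
      linarith
    have h1 : sd c1 d1 v < 0 := by
      rw [e', hz1]
      have := mul_pos_of_neg_of_neg (neg_neg_of_pos ha') hs1
      linarith
    exact absurd (hT.h1 v hv h0) (by linarith)

lemma Tri.sees_rz (hT : Tri V c0 d0 c1 d1 c2 d2) {r z : ℝ × ℝ} (hr0 : 0 < sd c0 d0 r)
    (hr1 : 0 < sd c1 d1 r) (hr2 : sd c2 d2 r = 0) (hz0 : 0 < sd c0 d0 z) (hz1 : sd c1 d1 z = 0)
    (hz2 : sd c2 d2 z < 0) : Sees (V : Set (ℝ × ℝ)) r z := by
  refine ⟨?_, ?_⟩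
  · rintro rfl; linarith
  · intro v hv hvs
    obtain ⟨a, b, ha, hb, hab, e⟩ := sd_openSegment (c := c0) (d := d0) hvs
    obtain ⟨a', b', ha', hb', hab', e'⟩ := sd_openSegment (c := c1) (d := d1) hvs
    obtain ⟨a'', b'', ha'', hb'', hab'', e''⟩ := sd_openSegment (c := c2) (d := d2) hvs
    have h0 : 0 < sd c0 d0 v := by
      rw [e]
      have := mul_pos hb hz0
      have := mul_pos ha hr0
      linarith
    have h1 : 0 < sd c1 d1 v := by
      rw [e', hz1]
      have := mul_pos ha' hr1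
      linarith
    have h2 : sd c2 d2 v < 0 := by
      rw [e'', hr2]
      have := mul_pos_of_neg_of_neg (neg_neg_of_pos hb'') hz2
      linarith
    exact absurd (hT.h2 v hv h0 h1) (by linarith)

lemma Tri.sees_sr (hT : Tri V c0 d0 c1 d1 c2 d2) {s r : ℝ × ℝ} (hs0 : sd c0 d0 s = 0)
    (_hs1 : sd c1 d1 s < 0) (hs2 : sd c2 d2 s < 0) (hr0 : 0 < sd c0 d0 r)
    (hr2 : sd c2 d2 r = 0)
    (hz : ∀ z ∈ fil V (fun p => 0 < sd c0 d0 p ∧ sd c1 d1 p = 0), ori s r z ≠ 0) :
    Sees (V : Set (ℝ × ℝ)) s r := by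
  refine ⟨?_, ?_⟩
  · rintro rfl; linarith
  · intro v hv hvs
    obtain ⟨a, b, ha, hb, hab, e⟩ := sd_openSegment (c := c0) (d := d0) hvs
    obtain ⟨a'', b'', ha'', hb'', hab'', e''⟩ := sd_openSegment (c := c2) (d := d2) hvs
    have h0 : 0 < sd c0 d0 v := by
      rw [e, hs0]
      have := mul_pos hb hr0
      linarith
    have h2 : sd c2 d2 v < 0 := by
      rw [e'', hr2]
      have := mul_pos_of_neg_of_neg (neg_neg_of_pos ha'') hs2
      linarith
    rcases (hT.h1 v hv h0).lt_or_eq with h1 | h1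
    · exact absurd (hT.h2 v hv h0 h1) (by linarith)
    · exact hz v (mem_fil.2 ⟨hv, h0, h1.symm⟩) (ori_eq_zero_of_mem hvs)

lemma Tri.pair (hT : Tri V c0 d0 c1 d1 c2 d2) :
    ∃ z ∈ V, ∃ z' ∈ V, (0 < sd c0 d0 z ∧ sd c1 d1 z = 0 ∧ sd c2 d2 z < 0) ∧
      (0 < sd c0 d0 z' ∧ sd c1 d1 z' = 0 ∧ sd c2 d2 z' < 0) ∧ Sees (V : Set (ℝ × ℝ)) z z' := by
  classical
  set Zm := fil V (fun p => 0 < sd c0 d0 p ∧ sd c1 d1 p = 0 ∧ sd c2 d2 p < 0) with hZm
  have hcard : 2 ≤ Zm.card := by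
    have h1 : fil V (fun p => 0 < sd c0 d0 p ∧ sd c1 d1 p = 0) ⊆
        fil V (fun p => 0 < sd c0 d0 p ∧ sd c1 d1 p = 0 ∧ 0 ≤ sd c2 d2 p) ∪ Zm := by
      intro p hp
      rw [mem_fil] at hp
      rw [Finset.mem_union, mem_fil, hZm, mem_fil]
      rcases le_or_gt 0 (sd c2 d2 p) with h | h
      · exact Or.inl ⟨hp.1, hp.2.1, hp.2.2, h⟩
      · exact Or.inr ⟨hp.1, hp.2.1, hp.2.2, h⟩
    have h2 := Finset.card_le_card h1
    have h3 := Finset.card_union_le (fil V (fun p => 0 < sd c0 d0 p ∧ sd c1 d1 p = 0 ∧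
      0 ≤ sd c2 d2 p)) Zm
    have h4 := hT.bad
    have h5 := hT.four
    omega
  obtain ⟨z, hz, w, hw, hzw⟩ := Finset.one_lt_card.1 (by omega : 1 < Zm.card)
  have hne : (Zm.erase z).Nonempty := ⟨w, Finset.mem_erase.2 ⟨hzw.symm, hw⟩⟩
  obtain ⟨z', hz', hmin⟩ := Finset.exists_min_image (Zm.erase z)
    (fun p => (p.1 - z.1) ^ 2 + (p.2 - z.2) ^ 2) hne
  rw [Finset.mem_erase] at hz'
  obtain ⟨hz'ne, hz'm⟩ := hz'
  have m1 := mem_fil.1 (hZm ▸ hz)
  have m2 := mem_fil.1 (hZm ▸ hz'm)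
  refine ⟨z, m1.1, z', m2.1, m1.2, m2.2, hz'ne.symm, ?_⟩
  intro v hv hvs
  obtain ⟨a, b, ha, hb, hab, e⟩ := sd_openSegment (c := c0) (d := d0) hvs
  obtain ⟨a', b', ha', hb', hab', e'⟩ := sd_openSegment (c := c1) (d := d1) hvs
  obtain ⟨a'', b'', ha'', hb'', hab'', e''⟩ := sd_openSegment (c := c2) (d := d2) hvs
  have h0 : 0 < sd c0 d0 v := by
    rw [e]
    have := mul_pos hb m2.2.1
    have := mul_pos ha m1.2.1
    linarith
  have h1 : sd c1 d1 v = 0 := by
    rw [e', m1.2.2.1, m2.2.2.1]; ring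
  have h2 : sd c2 d2 v < 0 := by
    rw [e'']
    have := mul_pos_of_neg_of_neg (neg_neg_of_pos hb'') m2.2.2.2
    have := mul_pos_of_neg_of_neg (neg_neg_of_pos ha'') m1.2.2.2
    linarith
  obtain ⟨α, β, hα, hβ, hαβ, rfl⟩ := hvs
  have hα' : α = 1 - β := by linarith
  have hpos : 0 < (z'.1 - z.1) ^ 2 + (z'.2 - z.2) ^ 2 := by
    rcases lt_or_eq_of_le (add_nonneg (sq_nonneg (z'.1 - z.1)) (sq_nonneg (z'.2 - z.2))) with h | h
    · exact h
    · exfalso
      apply hz'ne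
      have h3 : z'.1 - z.1 = 0 := by nlinarith [sq_nonneg (z'.1 - z.1), sq_nonneg (z'.2 - z.2)]
      have h4 : z'.2 - z.2 = 0 := by nlinarith [sq_nonneg (z'.1 - z.1), sq_nonneg (z'.2 - z.2)]
      exact Prod.ext (by linarith) (by linarith)
  have e1 : (α • z + β • z').1 - z.1 = β * (z'.1 - z.1) := by
    rw [hα']; simp; ring
  have e2 : (α • z + β • z').2 - z.2 = β * (z'.2 - z.2) := by
    rw [hα']; simp; ring
  have hvne : α • z + β • z' ≠ z := by
    intro h
    rw [h] at e1 e2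
    have h3 : z'.1 - z.1 = 0 := by
      rcases mul_eq_zero.1 (show β * (z'.1 - z.1) = 0 by linarith) with h | h
      · linarith
      · exact h
    have h4 : z'.2 - z.2 = 0 := by
      rcases mul_eq_zero.1 (show β * (z'.2 - z.2) = 0 by linarith) with h | h
      · linarith
      · exact h
    rw [h3, h4] at hpos
    norm_num at hpos
  have hvm : α • z + β • z' ∈ Zm.erase z := by
    rw [Finset.mem_erase, hZm, mem_fil]
    exact ⟨hvne, hv, h0, h1, h2⟩
  have := hmin _ hvm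
  rw [e1, e2] at this
  have hβ1 : β < 1 := by linarith
  have : β ^ 2 < 1 := by nlinarith
  nlinarith

/-- no two visible `s, s'` in row `0` see a common `r` of row `2`. -/
lemma Tri.left (hT : Tri V c0 d0 c1 d1 c2 d2) {s s' r : ℝ × ℝ} (hsV : s ∈ V) (hs'V : s' ∈ V)
    (hrV : r ∈ V) (hs0 : sd c0 d0 s = 0) (hs1 : sd c1 d1 s < 0) (hs'0 : sd c0 d0 s' = 0)
    (hs'1 : sd c1 d1 s' < 0) (hr0 : 0 < sd c0 d0 r) (hr1 : 0 < sd c1 d1 r) (hr2 : sd c2 d2 r = 0)
    (h1 : Sees (V : Set (ℝ × ℝ)) s s') (h2 : Sees (V : Set (ℝ × ℝ)) s r)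
    (h3 : Sees (V : Set (ℝ × ℝ)) s' r) : False := by
  obtain ⟨z, hz, z', hz', ⟨a1, a2, a3⟩, ⟨b1, b2, b3⟩, hzz⟩ := hT.pair
  exact hT.K5.elim5 (a := s) (b := s') (c := r) (d := z) (e := z') hsV hs'V hrV hz hz' h1 h2
    (hT.sees_sz hs0 hs1 a1 a2) (hT.sees_sz hs0 hs1 b1 b2) h3 (hT.sees_sz hs'0 hs'1 a1 a2)
    (hT.sees_sz hs'0 hs'1 b1 b2) (hT.sees_rz hr0 hr1 hr2 a1 a2 a3)
    (hT.sees_rz hr0 hr1 hr2 b1 b2 b3) hzz

/-- no two visible `r, r'` in row `2` see a common `s` of row `0`. -/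
lemma Tri.right (hT : Tri V c0 d0 c1 d1 c2 d2) {s r r' : ℝ × ℝ} (hsV : s ∈ V) (hrV : r ∈ V)
    (hr'V : r' ∈ V) (hs0 : sd c0 d0 s = 0) (hs1 : sd c1 d1 s < 0) (hr0 : 0 < sd c0 d0 r)
    (hr1 : 0 < sd c1 d1 r) (hr2 : sd c2 d2 r = 0) (hr'0 : 0 < sd c0 d0 r')
    (hr'1 : 0 < sd c1 d1 r') (hr'2 : sd c2 d2 r' = 0)
    (h1 : Sees (V : Set (ℝ × ℝ)) r r') (h2 : Sees (V : Set (ℝ × ℝ)) s r)
    (h3 : Sees (V : Set (ℝ × ℝ)) s r') : False := by
  obtain ⟨z, hz, z', hz', ⟨a1, a2, a3⟩, ⟨b1, b2, b3⟩, hzz⟩ := hT.pair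
  exact hT.K5.elim5 (a := s) (b := r) (c := r') (d := z) (e := z') hsV hrV hr'V hz hz' h2 h3
    (hT.sees_sz hs0 hs1 a1 a2) (hT.sees_sz hs0 hs1 b1 b2) h1 (hT.sees_rz hr0 hr1 hr2 a1 a2 a3)
    (hT.sees_rz hr0 hr1 hr2 b1 b2 b3) (hT.sees_rz hr'0 hr'1 hr'2 a1 a2 a3)
    (hT.sees_rz hr'0 hr'1 hr'2 b1 b2 b3) hzz

/-- the triple attached to a chain. -/
lemma tri_of_chain (H : ℕ) (V : ℕ → Finset (ℝ × ℝ)) (c d : ℕ → ℝ × ℝ) (hC : Chain H V c d)
    (i : ℕ) (hi : i + 2 ≤ H) (h4 : 4 ≤ (row V c d (i + 1)).card) :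
    Tri (V i) (c i) (d i) (c (i + 1)) (d (i + 1)) (c (i + 2)) (d (i + 2)) := by
  have s1 := hC.step i (by omega)
  have s2 := hC.step (i + 1) (by omega)
  refine ⟨hC.K5 i (by omega), ?_, ?_, ?_, ?_⟩
  · intro p hp h0
    exact hC.nonneg (i + 1) (by omega) p (by rw [s1]; exact mem_fil.2 ⟨hp, h0⟩)
  · intro p hp h0 h1
    refine hC.nonneg (i + 2) (by omega) p ?_
    rw [s2, s1]
    exact mem_fil.2 ⟨mem_fil.2 ⟨hp, h0⟩, h1⟩
  · refine le_trans (Finset.card_le_card ?_) (hC.bad (i + 1) (by omega))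
    intro p hp
    rw [mem_fil] at hp
    rw [mem_fil, s1, mem_fil]
    exact ⟨⟨hp.1, hp.2.1⟩, hp.2.2.1, hp.2.2.2⟩
  · refine le_trans h4 (Finset.card_le_card ?_)
    intro p hp
    unfold row at hp
    rw [mem_fil, s1, mem_fil] at hp
    rw [mem_fil]
    exact ⟨hp.1.1, hp.1.2, hp.2⟩

lemma row_mem (H : ℕ) (V : ℕ → Finset (ℝ × ℝ)) (c d : ℕ → ℝ × ℝ) (hC : Chain H V c d)
    (i : ℕ) (hi : i + 1 ≤ H) (p : ℝ × ℝ) :
    p ∈ row V c d (i + 1) ↔ p ∈ V i ∧ 0 < sd (c i) (d i) p ∧ sd (c (i + 1)) (d (i + 1)) p = 0 := by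
  unfold row
  rw [mem_fil, hC.step i (by omega), mem_fil]
  tauto

lemma row2_mem (H : ℕ) (V : ℕ → Finset (ℝ × ℝ)) (c d : ℕ → ℝ × ℝ) (hC : Chain H V c d)
    (i : ℕ) (hi : i + 2 ≤ H) (p : ℝ × ℝ) :
    p ∈ row V c d (i + 2) ↔ p ∈ V i ∧ 0 < sd (c i) (d i) p ∧ 0 < sd (c (i + 1)) (d (i + 1)) p ∧
      sd (c (i + 2)) (d (i + 2)) p = 0 := by
  unfold row
  rw [mem_fil, hC.step (i + 1) (by omega), mem_fil, hC.step i (by omega), mem_fil]
  tauto

theorem Fn_lt_left (H : ℕ) (V : ℕ → Finset (ℝ × ℝ)) (c d : ℕ → ℝ × ℝ) (hC : Chain H V c d)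
    (i : ℕ) (hi : i + 2 ≤ H) (h4 : 4 ≤ (row V c d (i + 1)).card) (s s' r : ℝ × ℝ)
    (hs : s ∈ row V c d i) (hs' : s' ∈ row V c d i) (hr : r ∈ row V c d (i + 2))
    (h1 : sd (c (i + 1)) (d (i + 1)) s < 0) (h1' : sd (c (i + 1)) (d (i + 1)) s' < 0)
    (h2 : sd (c (i + 2)) (d (i + 2)) s < 0) (h2' : sd (c (i + 2)) (d (i + 2)) s' < 0)
    (t : ℝ) (ht : 0 < t) (hss : s' = s + t • d i) (hcons : ∀ v ∈ V i, v ∉ openSegment ℝ s s') :
    Fn (row V c d (i + 1)) s r < Fn (row V c d (i + 1)) s' r := by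
  have hT := tri_of_chain H V c d hC i hi h4
  obtain ⟨rV, r0, r1, r2⟩ := (row2_mem H V c d hC i hi r).1 hr
  have sV : s ∈ V i ∧ sd (c i) (d i) s = 0 := mem_fil.1 hs
  have s'V : s' ∈ V i ∧ sd (c i) (d i) s' = 0 := mem_fil.1 hs'
  have hdne := hC.dne i (by omega)
  apply Fn_lt_of
  · intro z hz hz0
    obtain ⟨zV, z0, z1⟩ := (row_mem H V c d hC i (by omega) z).1 hz
    -- identity
    have key : sd (c (i + 1)) (d (i + 1)) s * ori s' r z =
        sd (c (i + 1)) (d (i + 1)) s' * ori s r z - sd (c (i + 1)) (d (i + 1)) r * ori s s' z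
          + sd (c (i + 1)) (d (i + 1)) z * ori s s' r := by
      simp only [sd, ori]; ring
    have hss' : ori s s' z = t * sd (c i) (d i) z := by
      have : ori s s' z = t * (sd (c i) (d i) z - sd (c i) (d i) s) := by
        rw [hss]
        simp only [sd, ori, Prod.fst_add, Prod.snd_add, Prod.smul_fst, Prod.smul_snd, smul_eq_mul]
        ring
      rw [this, sV.2]; ring
    rw [z1, hss'] at key
    have k1 : sd (c (i + 1)) (d (i + 1)) s' * ori s r z ≤ 0 :=
      mul_nonpos_of_nonpos_of_nonneg h1'.le hz0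
    have k2 : 0 < sd (c (i + 1)) (d (i + 1)) r * (t * sd (c i) (d i) z) :=
      mul_pos r1 (mul_pos ht z0)
    have k3 : sd (c (i + 1)) (d (i + 1)) s * ori s' r z < 0 := by rw [key]; linarith
    by_contra hcon
    push Not at hcon
    have := mul_nonneg_of_nonpos_of_nonpos h1.le hcon
    linarith
  · intro hz hz'
    refine hT.left sV.1 s'V.1 rV sV.2 h1 s'V.2 h1' r0 r1 r2 ⟨?_, hcons⟩ ?_ ?_
    · intro h
      rw [hss] at h
      have : t • d i = 0 := by
        have h3 : s + t • d i = s + 0 := by rw [add_zero]; exact h.symm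
        exact add_left_cancel h3
      rcases smul_eq_zero.1 this with h | h
      · linarith
      · exact hdne h
    · refine hT.sees_sr sV.2 h1 h2 r0 r2 ?_
      intro z hz1
      exact hz z ((row_mem H V c d hC i (by omega) z).2 (mem_fil.1 hz1))
    · refine hT.sees_sr s'V.2 h1' h2' r0 r2 ?_
      intro z hz1
      exact hz' z ((row_mem H V c d hC i (by omega) z).2 (mem_fil.1 hz1))

theorem Fn_lt_right (H : ℕ) (V : ℕ → Finset (ℝ × ℝ)) (c d : ℕ → ℝ × ℝ) (hC : Chain H V c d)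
    (i : ℕ) (hi : i + 2 ≤ H) (h4 : 4 ≤ (row V c d (i + 1)).card) (s r r' : ℝ × ℝ)
    (hs : s ∈ row V c d i) (hr : r ∈ row V c d (i + 2)) (hr' : r' ∈ row V c d (i + 2))
    (h1 : sd (c (i + 1)) (d (i + 1)) s < 0) (h2 : sd (c (i + 2)) (d (i + 2)) s < 0)
    (t : ℝ) (ht : 0 < t) (hrr : r' = r + t • d (i + 2))
    (hcons : ∀ v ∈ V (i + 2), v ∉ openSegment ℝ r r') :
    Fn (row V c d (i + 1)) s r < Fn (row V c d (i + 1)) s r' := by
  have hT := tri_of_chain H V c d hC i hi h4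
  obtain ⟨rV, r0, r1, r2⟩ := (row2_mem H V c d hC i hi r).1 hr
  obtain ⟨r'V, r'0, r'1, r'2⟩ := (row2_mem H V c d hC i hi r').1 hr'
  have sV : s ∈ V i ∧ sd (c i) (d i) s = 0 := mem_fil.1 hs
  have hdne := hC.dne (i + 2) (by omega)
  apply Fn_lt_of
  · intro z hz hz0
    obtain ⟨zV, z0, z1⟩ := (row_mem H V c d hC i (by omega) z).1 hz
    rcases le_or_gt 0 (sd (c (i + 2)) (d (i + 2)) z) with hz2 | hz2
    · -- the sign is constant
      have id1 : ∀ q : ℝ × ℝ, (sd (c (i + 1)) (d (i + 1)) q - sd (c (i + 1)) (d (i + 1)) s) *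
          sd (c (i + 2)) (d (i + 2)) z - (sd (c (i + 1)) (d (i + 1)) q *
            sd (c (i + 2)) (d (i + 2)) s - sd (c (i + 1)) (d (i + 1)) s *
              sd (c (i + 2)) (d (i + 2)) q) - sd (c (i + 1)) (d (i + 1)) z *
                (sd (c (i + 2)) (d (i + 2)) q - sd (c (i + 2)) (d (i + 2)) s)
          = - ori s q z * ((d (i + 2)).1 * (d (i + 1)).2 - (d (i + 2)).2 * (d (i + 1)).1) := by
        intro q
        simp only [sd, ori]; ring
      have i1 := id1 r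
      have i2 := id1 r'
      rw [z1, r2] at i1
      rw [z1, r'2] at i2
      set D := (d (i + 2)).1 * (d (i + 1)).2 - (d (i + 2)).2 * (d (i + 1)).1
      have p1 : 0 < - ori s r z * D := by
        rw [← i1]
        have q1 := mul_nonneg (show 0 ≤ sd (c (i + 1)) (d (i + 1)) r -
          sd (c (i + 1)) (d (i + 1)) s by linarith) hz2
        have q2 := mul_neg_of_pos_of_neg r1 h2
        linarith
      have p2 : 0 < - ori s r' z * D := by
        rw [← i2]
        have q1 := mul_nonneg (show 0 ≤ sd (c (i + 1)) (d (i + 1)) r' -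
          sd (c (i + 1)) (d (i + 1)) s by linarith) hz2
        have q2 := mul_neg_of_pos_of_neg r'1 h2
        linarith
      have hD : D < 0 := by
        by_contra hcon
        push Not at hcon
        have := mul_nonneg hz0 hcon
        linarith
      by_contra hcon
      push Not at hcon
      have := mul_nonneg_of_nonpos_of_nonpos hcon hD.le
      linarith
    · -- identity
      have key : sd (c (i + 1)) (d (i + 1)) r * ori s r' z =
          sd (c (i + 1)) (d (i + 1)) s * ori r r' z + sd (c (i + 1)) (d (i + 1)) r' * ori s r z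
            - sd (c (i + 1)) (d (i + 1)) z * ori s r r' := by
        simp only [sd, ori]; ring
      have hrr' : ori r r' z = t * sd (c (i + 2)) (d (i + 2)) z := by
        have : ori r r' z = t * (sd (c (i + 2)) (d (i + 2)) z - sd (c (i + 2)) (d (i + 2)) r) := by
          rw [hrr]
          simp only [sd, ori, Prod.fst_add, Prod.snd_add, Prod.smul_fst, Prod.smul_snd,
            smul_eq_mul]
          ring
        rw [this, r2]; ring
      rw [z1, hrr'] at key
      have k1 : 0 < sd (c (i + 1)) (d (i + 1)) s * (t * sd (c (i + 2)) (d (i + 2)) z) :=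
        mul_pos_of_neg_of_neg h1 (mul_neg_of_pos_of_neg ht hz2)
      have k2 : 0 ≤ sd (c (i + 1)) (d (i + 1)) r' * ori s r z := mul_nonneg r'1.le hz0
      have k3 : 0 < sd (c (i + 1)) (d (i + 1)) r * ori s r' z := by rw [key]; linarith
      by_contra hcon
      push Not at hcon
      have := mul_nonpos_of_nonneg_of_nonpos r1.le hcon
      linarith
  · intro hz hz'
    refine hT.right sV.1 rV r'V sV.2 h1 r0 r1 r2 r'0 r'1 r'2 ⟨?_, ?_⟩ ?_ ?_
    · intro h
      rw [hrr] at h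
      have : t • d (i + 2) = 0 := by
        have h3 : r + t • d (i + 2) = r + 0 := by rw [add_zero]; exact h.symm
        exact add_left_cancel h3
      rcases smul_eq_zero.1 this with h | h
      · linarith
      · exact hdne h
    · intro v hv hvs
      obtain ⟨a, b, ha, hb, hab, e⟩ := sd_openSegment (c := c i) (d := d i) hvs
      obtain ⟨a', b', ha', hb', hab', e'⟩ :=
        sd_openSegment (c := c (i + 1)) (d := d (i + 1)) hvs
      refine hcons v ?_ hvs
      rw [hC.step (i + 1) (by omega), hC.step i (by omega), mem_fil, mem_fil]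
      refine ⟨⟨hv, ?_⟩, ?_⟩
      · rw [e]
        have := mul_pos ha r0
        have := mul_pos hb r'0
        linarith
      · rw [e']
        have := mul_pos ha' r1
        have := mul_pos hb' r'1
        linarith
    · refine hT.sees_sr sV.2 h1 h2 r0 r2 ?_
      intro z hz1
      exact hz z ((row_mem H V c d hC i (by omega) z).2 (mem_fil.1 hz1))
    · refine hT.sees_sr sV.2 h1 h2 r'0 r'2 ?_
      intro z hz1
      exact hz' z ((row_mem H V c d hC i (by omega) z).2 (mem_fil.1 hz1))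

theorem Fn_odd (H : ℕ) (V : ℕ → Finset (ℝ × ℝ)) (c d : ℕ → ℝ × ℝ) (hC : Chain H V c d)
    (i : ℕ) (hi : i + 2 ≤ H) (e : ℕ → ℝ × ℝ) (he : Enum (row V c d (i + 1)) (d (i + 1)) e)
    (s r : ℝ × ℝ) (_hs : s ∈ row V c d i) (hr : r ∈ row V c d (i + 2))
    (h1 : sd (c (i + 1)) (d (i + 1)) s < 0) (m : ℕ)
    (hm : Fn (row V c d (i + 1)) s r = 2 * m + 1) :
    m < (row V c d (i + 1)).card ∧ ori s r (e m) = 0 := by
  classical
  obtain ⟨rV, r0, r1, r2⟩ := (row2_mem H V c d hC i hi r).1 hr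
  set Z := row V c d (i + 1) with hZ
  have hdec : ∀ j k, j < k → k < Z.card → ori s r (e k) < ori s r (e j) := by
    intro j k hjk hk
    obtain ⟨t, ht, hek⟩ := he.lt j k hjk hk
    have : ori s r (e k) = ori s r (e j) - t * (sd (c (i + 1)) (d (i + 1)) r -
        sd (c (i + 1)) (d (i + 1)) s) := by
      rw [hek]
      simp only [sd, ori, Prod.fst_add, Prod.snd_add, Prod.smul_fst, Prod.smul_snd, smul_eq_mul]
      ring
    rw [this]
    have := mul_pos ht (show 0 < sd (c (i + 1)) (d (i + 1)) r -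
      sd (c (i + 1)) (d (i + 1)) s by linarith)
    linarith
  have hinj : ∀ j k, j < Z.card → k < Z.card → e j = e k → j = k := by
    intro j k hj hk h
    rcases lt_trichotomy j k with h1 | h1 | h1
    · have := hdec j k h1 hk
      rw [h] at this
      exact absurd this (lt_irrefl _)
    · exact h1
    · have := hdec k j h1 hj
      rw [h] at this
      exact absurd this (lt_irrefl _)
  unfold Fn at hm
  have hB1 : (fil Z (fun z => ori s r z = 0)).card ≤ 1 := by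
    rw [Finset.card_le_one]
    intro p hp q hq
    rw [mem_fil] at hp hq
    obtain ⟨j, hj, rfl⟩ := he.surj p hp.1
    obtain ⟨k, hk, rfl⟩ := he.surj q hq.1
    rcases lt_trichotomy j k with h1 | h1 | h1
    · have := hdec j k h1 hk
      have h5 := hp.2
      have h6 := hq.2
      linarith
    · rw [h1]
    · have := hdec k j h1 hj
      have h5 := hp.2
      have h6 := hq.2
      linarith
  have hB : (fil Z (fun z => ori s r z = 0)).card = 1 := by omega
  obtain ⟨z, hz⟩ := Finset.card_eq_one.1 hB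
  have hzm : z ∈ fil Z (fun z => ori s r z = 0) := by rw [hz]; simp
  rw [mem_fil] at hzm
  obtain ⟨j, hj, hje⟩ := he.surj z hzm.1
  have hj0 : ori s r (e j) = 0 := by rw [hje]; exact hzm.2
  have hA : (fil Z (fun z => 0 < ori s r z)).card = j := by
    have : fil Z (fun z => 0 < ori s r z) = (Finset.range j).image e := by
      ext p
      rw [mem_fil, Finset.mem_image]
      constructor
      · rintro ⟨hp, hp0⟩
        obtain ⟨k, hk, rfl⟩ := he.surj p hp
        refine ⟨k, ?_, rfl⟩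
        rw [Finset.mem_range]
        by_contra hcon
        push Not at hcon
        rcases hcon.lt_or_eq with h | h
        · have := hdec j k h hk
          linarith
        · rw [← h] at hp0
          linarith
      · rintro ⟨k, hk, rfl⟩
        rw [Finset.mem_range] at hk
        refine ⟨he.mem k (by omega), ?_⟩
        have := hdec k j hk hj
        linarith
    rw [this, Finset.card_image_of_injOn, Finset.card_range]
    intro a ha b hb hab
    simp only [Finset.coe_range, Set.mem_Iio] at ha hb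
    exact hinj a b (by omega) (by omega) hab
  have hjm : j = m := by omega
  subst hjm
  exact ⟨hj, hj0⟩

end Pool.Agent.helper43.Triple
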